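import Pool.Agent.N40.TC.ZO

/-!
# TWA/PB: bounds for the entries of the two by two blocks (helper40)
-/

set_option autoImplicit false

namespace Pool.Agent.N40.TC

open Pool.Agent.N569.TC Finset

variable {m : ℕ} {j : ℤ}

/-- the item is a letter at the gap `g` -/
def AtG (g : ℕ) (x : It) : Prop := ∃ b, x = It.letter b g

/-- only the middle height differs -/
theorem Hh_same {g k : ℕ} {s t : Fin m → Fin 2} (ht : t = fl g s) (hk : k ≠ g + 1) :
    Hh t k = Hh s k := by
  rw [ht, Hh_fl_ne s hk]

theorem M0_off {g : ℕ} (hg : g + 1 < m) {s t : VV m j} (hs : Vl g s.1) (ht : t.1 = fl g s.1)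
    {x : It} (hx : ¬ AtG g x) : M0 x t s = 0 := by
  classical
  have hne := ne_of_valley hg hs ht
  have hv := (valley_fl hg ht hs).1
  have key : ∀ i : ℕ, i ≠ g → Pk i t.1 → t.1 = fl i s.1 → False := by
    intro i hi hp hf
    by_cases him : i + 1 < m
    · have h1 := peak_fl him hf hp
      have h2 := Hh_same ht (k := i + 1) (by omega)
      linarith
    · rw [fl_big him] at hf
      exact hne (Subtype.ext hf)
  cases x with
  | letter b i =>
    have hi : i ≠ g := by
      rintro rfl
      exact hx ⟨b, rfl⟩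
    cases b with
    | true =>
      simp only [M0, Matrix.of_apply]
      rw [if_neg]
      rintro ⟨h1, h2 | h2⟩
      · exact hne h2
      · exact key i hi h1 h2
    | false =>
      simp only [M0, Matrix.of_apply]
      rw [if_neg hne, if_neg]
      rintro ⟨h1, h2⟩
      exact key i hi h1 h2
  | twist n a =>
    simp only [M0, Matrix.of_apply]
    rw [if_neg]
    rintro ⟨h1, -⟩
    exact hne h1

theorem M0_at_true {g : ℕ} (hg : g + 1 < m) {s t : VV m j} (hs : Vl g s.1) (ht : t.1 = fl g s.1) :
    M0 (It.letter true g) t s = 1 := by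
  classical
  simp only [M0, Matrix.of_apply]
  rw [if_pos ⟨(valley_fl hg ht hs).2, Or.inr ht⟩]

theorem M0_at_false {g : ℕ} (hg : g + 1 < m) {s t : VV m j} (hs : Vl g s.1)
    (ht : t.1 = fl g s.1) : M0 (It.letter false g) t s = -1 := by
  classical
  simp only [M0, Matrix.of_apply]
  rw [if_neg (ne_of_valley hg hs ht), if_pos ⟨(valley_fl hg ht hs).2, ht⟩]

theorem ok_s_true {g : ℕ} {s : Fin m → Fin 2} (hs : Vl g s) : ¬ (It.letter true g).OK s := by
  simp only [It.OK, if_true]
  unfold Vl at hs
  unfold Pk
  omega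

theorem ok_s_false {g : ℕ} {s : Fin m → Fin 2} (hs : Vl g s) : (It.letter false g).OK s := by
  simp only [It.OK, Bool.false_eq_true, if_false]
  unfold Vl at hs
  unfold Pk
  omega

theorem ok_t_true {g : ℕ} {t : Fin m → Fin 2} (ht : Pk g t) : (It.letter true g).OK t := by
  simp only [It.OK, if_true]
  exact ht

theorem ok_t_false {g : ℕ} {t : Fin m → Fin 2} (ht : Pk g t) : ¬ (It.letter false g).OK t := by
  simp only [It.OK, Bool.false_eq_true, if_false, not_not]
  exact ht

/-- the condition of the word for one item -/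
def AltI (m c : ℕ) (x : It) : Prop := match x with
  | It.letter b i => i + 1 < m ∧ (b = true ↔ i % 2 = c)
  | It.twist n _ => n ≤ m ∧ ∀ g, g + n + 1 = m → g % 2 ≠ c

theorem alt_iff (c : ℕ) (L : List It) : Alt m c L ↔ ∀ x ∈ L, AltI m c x := by
  unfold Alt AltI
  exact Iff.rfl

/-- swap lemma, positive gap -/
theorem swap_pos {c : ℕ} (hc : c < 2) {g : ℕ} (hg : g + 1 < m) (hgc : g % 2 = c)
    {s t : Fin m → Fin 2} (hs : Vl g s) (ht : t = fl g s) {y : It} (hy : AltI m c y)
    (hyg : ¬ AtG g y) (h : y.OK s) : y.OK t := by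
  obtain ⟨hv, hp⟩ := valley_fl hg ht hs
  have hsame : ∀ k, k ≠ g + 1 → Hh t k = Hh s k := fun k hk => Hh_same ht hk
  cases y with
  | letter b i =>
    have hi : i ≠ g := by
      rintro rfl
      exact hyg ⟨b, rfl⟩
    obtain ⟨hy1, hy2⟩ := hy
    by_cases h1 : i = g + 1
    · subst h1
      have hb : b = false := by
        cases b
        · rfl
        · have := hy2.1 rfl
          omega
      subst hb
      simp only [It.OK, Bool.false_eq_true, if_false]
      unfold Pk at hp ⊢
      rw [show g + 1 + 1 = g + 2 from rfl]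
      omega
    · by_cases h2 : i + 1 = g
      · subst h2
        have hb : b = false := by
          cases b
          · rfl
          · have := hy2.1 rfl
            omega
        subst hb
        simp only [It.OK, Bool.false_eq_true, if_false]
        unfold Pk at hp ⊢
        rw [show i + 1 + 1 = i + 2 from rfl] at hp
        omega
      · have e : Pk i t ↔ Pk i s := by
          unfold Pk
          rw [hsame i (by omega), hsame (i+1) (by omega), hsame (i+2) (by omega)]
        simp only [It.OK] at h ⊢
        rw [e]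
        exact h
  | twist n a =>
    simp only [It.OK] at h ⊢
    by_cases h1 : m - n = g + 1
    · exfalso
      exact hy.2 g (by have := hy.1; omega) hgc
    · rw [hsame _ h1]
      exact h

/-- swap lemma, negative gap -/
theorem swap_neg {c : ℕ} (hc : c < 2) {g : ℕ} (hg : g + 1 < m) (hgc : g % 2 ≠ c)
    {s t : Fin m → Fin 2} (hsv : Vd s) (hs : Vl g s) (ht : t = fl g s) {y : It} (hy : AltI m c y)
    (hyg : ¬ AtG g y) (h : y.OK t) : y.OK s := by
  obtain ⟨hv, hp⟩ := valley_fl hg ht hs
  have hsame : ∀ k, k ≠ g + 1 → Hh t k = Hh s k := fun k hk => Hh_same ht hk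
  cases y with
  | letter b i =>
    have hi : i ≠ g := by
      rintro rfl
      exact hyg ⟨b, rfl⟩
    obtain ⟨hy1, hy2⟩ := hy
    by_cases h1 : i = g + 1
    · subst h1
      have hb : b = true := hy2.2 (by omega)
      subst hb
      exfalso
      simp only [It.OK, if_true] at h
      unfold Pk at hp h
      rw [show g + 1 + 1 = g + 2 from rfl] at h
      omega
    · by_cases h2 : i + 1 = g
      · subst h2
        have hb : b = true := hy2.2 (by omega)
        subst hb
        exfalso
        simp only [It.OK, if_true] at h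
        unfold Pk at hp h
        rw [show i + 1 + 1 = i + 2 from rfl] at hp
        omega
      · have e : Pk i t ↔ Pk i s := by
          unfold Pk
          rw [hsame i (by omega), hsame (i+1) (by omega), hsame (i+2) (by omega)]
        simp only [It.OK] at h ⊢
        rw [e] at h
        exact h
  | twist n a =>
    simp only [It.OK] at h ⊢
    by_cases h1 : m - n = g + 1
    · exfalso
      rw [h1] at h
      have h2 := hsv (g + 1)
      omega
    · rw [hsame _ h1] at h
      exact h

/-! ### the entries -/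

/-- the diagonal entries are `0` or `1` -/
theorem delta_mem (X : List It) (s : VV m j) : 0 ≤ P0 X s s ∧ P0 X s s ≤ 1 := by
  classical
  rw [P0_diag']
  split_ifs <;> simp

theorem delta_zero {X : List It} {s : VV m j} (h : ∃ y ∈ X, ¬ y.OK s.1) : P0 X s s = 0 := by
  classical
  rw [P0_diag', if_neg]
  obtain ⟨y, hy, hn⟩ := h
  exact fun h => hn (h y hy)

theorem M0d_mem (x : It) (s : VV m j) : M0 x s s = 0 ∨ M0 x s s = 1 := by
  classical
  rw [M0_diag]
  split_ifs <;> simp

theorem M0d_zero {x : It} {s : VV m j} (h : ¬ x.OK s.1) : M0 x s s = 0 := by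
  classical
  rw [M0_diag, if_neg h]

theorem M0d_one {x : It} {s : VV m j} (h : x.OK s.1) : M0 x s s = 1 := by
  classical
  rw [M0_diag, if_pos h]

section
variable {g : ℕ} (hg : g + 1 < m) {s t : VV m j} (hs : Vl g s.1) (ht : t.1 = fl g s.1)
include hg hs ht

theorem beta_nil : P0 [] t s = 0 := by
  rw [P0_nil]
  exact Matrix.one_apply_ne (ne_of_valley hg hs ht)

theorem beta_cons_off {x : It} (hx : ¬ AtG g x) (X : List It) :
    P0 (x :: X) t s = M0 x t t * P0 X t s := by
  rw [P0_pair' x X g hg s t hs ht, M0_off hg hs ht hx, zero_mul, add_zero]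

/-- without letters at the gap -/
theorem beta_none {X : List It} (h : ∀ x ∈ X, ¬ AtG g x) : P0 X t s = 0 := by
  induction X with
  | nil => exact beta_nil hg hs ht
  | cons x X ih =>
    rw [List.forall_mem_cons] at h
    rw [beta_cons_off hg hs ht h.1, ih h.2, mul_zero]

/-- both entries stay zero -/
theorem both_zero (X Y : List It) (h1 : P0 Y t s = 0) (h2 : P0 Y s s = 0) :
    P0 (X ++ Y) t s = 0 ∧ P0 (X ++ Y) s s = 0 := by
  induction X with
  | nil => exact ⟨h1, h2⟩
  | cons x X ih =>
    rw [List.cons_append]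
    refine ⟨?_, ?_⟩
    · rw [P0_pair' x _ g hg s t hs ht, ih.1, ih.2]
      ring
    · rw [P0_cons_diag, ih.2, mul_zero]

/-- the entry stays zero without letters at the gap -/
theorem beta_zero_off (X Y : List It) (hX : ∀ x ∈ X, ¬ AtG g x) (h1 : P0 Y t s = 0) :
    P0 (X ++ Y) t s = 0 := by
  induction X with
  | nil => exact h1
  | cons x X ih =>
    rw [List.forall_mem_cons] at hX
    rw [List.cons_append, beta_cons_off hg hs ht hX.1, ih hX.2, mul_zero]

end

/-- TCB/PB (1): positive gap `g`, peak `t`, valley `s` -/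
theorem pair_pos (c : ℕ) (hc : c < 2) (X : List It) (hA : Alt m c X) (g : ℕ) (hg : g + 1 < m)
    (hgc : g % 2 = c) (s t : VV m j) (hs : Vl g s.1) (ht : t.1 = fl g s.1) :
    (0 ≤ P0 X t s ∧ P0 X t s ≤ 1) ∧
    ((∃ y ∈ X, ¬ y.OK t.1) → P0 X t s = 0) ∧
    (∀ (X1 X2 : List It) (b b' : Bool) (i : ℕ), X = X1 ++ It.letter b i :: X2 → i ≠ g →
      It.letter b' g ∉ X2 → b' = true → ¬ (It.letter b i).OK s.1 → P0 X t s = 0) := by
  have hpk := (valley_fl hg ht hs).2
  rw [alt_iff] at hA
  have hat : ∀ x, AltI m c x → AtG g x → x = It.letter true g := by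
    rintro x hx ⟨b, rfl⟩
    have := hx.2.2 hgc
    rw [this]
  refine ⟨?_, ?_, ?_⟩
  · have main : 0 ≤ P0 X t s ∧ P0 X t s + P0 X s s ≤ 1 := by
      induction X with
      | nil =>
        rw [beta_nil hg hs ht, P0_nil, Matrix.one_apply_eq]
        simp
      | cons x X ih =>
        rw [List.forall_mem_cons] at hA
        obtain ⟨i1, i2⟩ := ih hA.2
        obtain ⟨d1, d2⟩ := delta_mem X s
        by_cases hx : AtG g x
        · have hx' := hat x hA.1 hx
          subst hx'
          rw [P0_pair' _ X g hg s t hs ht, P0_cons_diag, M0_at_true hg hs ht,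
            M0d_one (ok_t_true hpk), M0d_zero (ok_s_true hs)]
          constructor <;> linarith
        · rw [beta_cons_off hg hs ht hx, P0_cons_diag]
          rcases M0d_mem x t with h1 | h1 <;> rcases M0d_mem x s with h2 | h2 <;> rw [h1, h2] <;>
            constructor <;> linarith
    have := delta_mem X s
    constructor
    · exact main.1
    · linarith [main.2, this.1]
  · rintro ⟨y, hy, hn⟩
    obtain ⟨X1, X2, rfl⟩ := List.append_of_mem hy
    have hAy : AltI m c y := hA y hy
    have hyg : ¬ AtG g y := by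
      intro h
      rw [hat y hAy h] at hn
      exact hn (ok_t_true hpk)
    refine (both_zero hg hs ht X1 (y :: X2) ?_ ?_).1
    · rw [beta_cons_off hg hs ht hyg, M0d_zero hn, zero_mul]
    · rw [P0_cons_diag, M0d_zero, zero_mul]
      intro h
      exact hn (swap_pos hc hg hgc hs ht hAy hyg h)
  · rintro X1 X2 b b' i rfl hi hX2 rfl hn
    have hyg : ¬ AtG g (It.letter b i) := by
      rintro ⟨b'', h⟩
      injection h with h1 h2
      exact hi h2
    refine (both_zero hg hs ht X1 _ ?_ ?_).1
    · rw [beta_cons_off hg hs ht hyg, beta_none hg hs ht, mul_zero]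
      intro x hx hxg
      have h1 := hat x (hA x (by simp [hx])) hxg
      rw [h1] at hx
      exact hX2 hx
    · rw [P0_cons_diag, M0d_zero hn, zero_mul]

/-- TCB/PB (2): negative gap `g`, peak `t`, valley `s` -/
theorem pair_neg (c : ℕ) (hc : c < 2) (X : List It) (hA : Alt m c X) (g : ℕ) (hg : g + 1 < m)
    (hgc : g % 2 ≠ c) (s t : VV m j) (hs : Vl g s.1) (ht : t.1 = fl g s.1) :
    (-1 ≤ P0 X t s ∧ P0 X t s ≤ 0) ∧
    ((∃ y ∈ X, ¬ y.OK s.1) → P0 X t s = 0) ∧
    (∀ (X1 X2 : List It) (b b' : Bool) (i : ℕ), X = X1 ++ It.letter b i :: X2 → i ≠ g →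
      It.letter b' g ∉ X1 → b' = false → ¬ (It.letter b i).OK t.1 → P0 X t s = 0) := by
  have hpk := (valley_fl hg ht hs).2
  rw [alt_iff] at hA
  have hat : ∀ x, AltI m c x → AtG g x → x = It.letter false g := by
    rintro x hx ⟨b, rfl⟩
    cases b
    · rfl
    · exact absurd (hx.2.1 rfl) hgc
  refine ⟨?_, ?_, ?_⟩
  · induction X with
    | nil =>
      rw [beta_nil hg hs ht]
      simp
    | cons x X ih =>
      rw [List.forall_mem_cons] at hA
      obtain ⟨i1, i2⟩ := ih hA.2
      obtain ⟨d1, d2⟩ := delta_mem X s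
      by_cases hx : AtG g x
      · have hx' := hat x hA.1 hx
        subst hx'
        rw [P0_pair' _ X g hg s t hs ht, M0_at_false hg hs ht, M0d_zero (ok_t_false hpk)]
        constructor <;> linarith
      · rw [beta_cons_off hg hs ht hx]
        rcases M0d_mem x t with h1 | h1 <;> rw [h1] <;> constructor <;> linarith
  · rintro ⟨y, hy, hn⟩
    obtain ⟨X1, X2, rfl⟩ := List.append_of_mem hy
    have hAy : AltI m c y := hA y hy
    have hyg : ¬ AtG g y := by
      intro h
      rw [hat y hAy h] at hn
      exact hn (ok_s_false hs)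
    refine (both_zero hg hs ht X1 (y :: X2) ?_ ?_).1
    · rw [beta_cons_off hg hs ht hyg, M0d_zero, zero_mul]
      intro h
      exact hn (swap_neg hc hg hgc s.2.1 hs ht hAy hyg h)
    · rw [P0_cons_diag, M0d_zero hn, zero_mul]
  · rintro X1 X2 b b' i rfl hi hX1 rfl hn
    have hyg : ¬ AtG g (It.letter b i) := by
      rintro ⟨b'', h⟩
      injection h with h1 h2
      exact hi h2
    apply beta_zero_off hg hs ht
    · intro x hx hxg
      have h1 := hat x (hA x (by simp [hx])) hxg
      rw [h1] at hx
      exact hX1 hx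
    · rw [beta_cons_off hg hs ht hyg, M0d_zero hn, zero_mul]

end Pool.Agent.N40.TC
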