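import Pool.Agent.N569.TC.Defs

/-!
# TWA/ZO: triangular 0-1 matrices on lattice paths (helper40)
-/

set_option autoImplicit false

namespace Pool.Agent.N40.TC

open Pool.Agent.N569.TC Finset

variable {m : ℕ} {j : ℤ}

/-- the area below the path -/
def ar (s : Fin m → Fin 2) : ℤ := ∑ i ∈ range (m + 1), Hh s i

/-- an exchange which gives a peak raises one height by two -/
theorem peak_fl {i : ℕ} (hi : i + 1 < m) {s t : Fin m → Fin 2} (ht : t = fl i s) (hp : Pk i t) :
    Hh t (i+1) = Hh s (i+1) + 2 := by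
  have h1 := Hh_fl s hi
  have h2 := Hh_fl_ne s (i := i) (j := i) (by omega)
  have h3 := Hh_fl_ne s (i := i) (j := i + 2) (by omega)
  rw [← ht] at h1 h2 h3
  have h4 := Hh_step t (i := i) (by omega)
  have h5 := Hh_step t (i := i + 1) hi
  rw [show i + 1 + 1 = i + 2 from rfl] at h5
  obtain ⟨h6, h7⟩ := hp
  omega

/-- an exchange at a valley raises one height by two -/
theorem valley_fl {i : ℕ} (hi : i + 1 < m) {s t : Fin m → Fin 2} (ht : t = fl i s) (hv : Vl i s) :
    Hh t (i+1) = Hh s (i+1) + 2 ∧ Pk i t := by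
  have h1 := Hh_fl s hi
  have h2 := Hh_fl_ne s (i := i) (j := i) (by omega)
  have h3 := Hh_fl_ne s (i := i) (j := i + 2) (by omega)
  rw [← ht] at h1 h2 h3
  have h4 := Hh_step s (i := i) (by omega)
  have h5 := Hh_step s (i := i + 1) hi
  rw [show i + 1 + 1 = i + 2 from rfl] at h5
  obtain ⟨h6, h7⟩ := hv
  unfold Pk
  omega

theorem ar_of {i : ℕ} (hi : i + 1 < m) {s t : Fin m → Fin 2} (ht : t = fl i s)
    (h : Hh t (i+1) = Hh s (i+1) + 2) : ar t = ar s + 2 := by
  unfold ar
  have h1 : ∀ k ∈ range (m + 1), Hh t k = Hh s k + (if k = i + 1 then 2 else 0) := by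
    intro k _
    by_cases hk : k = i + 1
    · rw [if_pos hk, hk, h]
    · rw [if_neg hk, add_zero, ht, Hh_fl_ne s hk]
  rw [sum_congr rfl h1, sum_add_distrib, Finset.sum_ite_eq' (range (m+1)) (i+1) (fun _ => (2:ℤ)),
    if_pos (mem_range.2 (by omega))]

theorem fl_big {i : ℕ} (hi : ¬ i + 1 < m) (s : Fin m → Fin 2) : fl i s = s := by
  unfold fl
  rw [dif_neg hi]

/-- the matrices are triangular -/
theorem M0_tri (x : It) (t s : VV m j) (h : M0 x t s ≠ 0) : t = s ∨ ar t.1 = ar s.1 + 2 := by
  classical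
  by_cases hts : t = s
  · exact Or.inl hts
  right
  have key : ∀ i : ℕ, Pk i t.1 → t.1 = fl i s.1 → ar t.1 = ar s.1 + 2 := by
    intro i hp hf
    by_cases hi : i + 1 < m
    · exact ar_of hi hf (peak_fl hi hf hp)
    · rw [fl_big hi] at hf
      exact absurd (Subtype.ext hf) hts
  cases x with
  | letter b i =>
    cases b with
    | true =>
      simp only [M0, Matrix.of_apply] at h
      by_cases hc : Pk i t.1 ∧ (t = s ∨ t.1 = fl i s.1)
      · exact key i hc.1 (hc.2.resolve_left hts)
      · rw [if_neg hc] at h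
        exact absurd rfl h
    | false =>
      simp only [M0, Matrix.of_apply] at h
      rw [if_neg hts] at h
      by_cases hc : Pk i t.1 ∧ t.1 = fl i s.1
      · exact key i hc.1 hc.2
      · rw [if_neg hc] at h
        exact absurd rfl h
  | twist n a =>
    simp only [M0, Matrix.of_apply] at h
    rw [if_neg (fun hc => hts hc.1)] at h
    exact absurd rfl h

open Classical in
theorem M0_diag (x : It) (s : VV m j) : M0 x s s = if x.OK s.1 then 1 else 0 := by
  cases x with
  | letter b i =>
    cases b with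
    | true => simp [M0, It.OK]
    | false => simp [M0, It.OK]
  | twist n a => by_cases h : Hh s.1 (m - n) = (n:ℤ) % 2 <;> simp [M0, It.OK, h]

theorem P0_cons (x : It) (L : List It) (t s : VV m j) :
    P0 (x :: L) t s = ∑ r : VV m j, M0 x t r * P0 L r s := by
  unfold P0
  rw [List.map_cons, List.prod_cons, Matrix.mul_apply]

theorem P0_nil (t s : VV m j) : P0 [] t s = (1 : Matrix (VV m j) (VV m j) ℤ) t s := rfl

theorem P0_tri (L : List It) (t s : VV m j) (h : P0 L t s ≠ 0) : t = s ∨ ar s.1 < ar t.1 := by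
  induction L generalizing t with
  | nil =>
    rw [P0_nil] at h
    left
    by_contra hts
    exact h (Matrix.one_apply_ne hts)
  | cons x L ih =>
    rw [P0_cons] at h
    obtain ⟨r, -, hr⟩ := Finset.exists_ne_zero_of_sum_ne_zero h
    have h1 := left_ne_zero_of_mul hr
    have h2 := right_ne_zero_of_mul hr
    rcases M0_tri x t r h1 with h3 | h3
    · subst h3
      exact ih _ h2
    · rcases ih _ h2 with h4 | h4
      · subst h4
        right
        linarith
      · right
        linarith

theorem P0_cons_diag (x : It) (L : List It) (s : VV m j) :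
    P0 (x :: L) s s = M0 x s s * P0 L s s := by
  rw [P0_cons]
  refine Finset.sum_eq_single s (fun r _ hr => ?_) (fun h => absurd (Finset.mem_univ _) h)
  by_contra h
  have h1 := left_ne_zero_of_mul h
  have h2 := right_ne_zero_of_mul h
  rcases M0_tri x s r h1 with h3 | h3
  · exact hr h3.symm
  · rcases P0_tri L r s h2 with h4 | h4
    · exact hr h4
    · linarith

open Classical in
theorem P0_diag' (L : List It) (s : VV m j) :
    P0 L s s = if ∀ x ∈ L, x.OK s.1 then 1 else 0 := by
  induction L with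
  | nil =>
    rw [P0_nil, Matrix.one_apply_eq]
    simp
  | cons x L ih =>
    rw [P0_cons_diag, ih, M0_diag]
    simp only [List.forall_mem_cons]
    by_cases h1 : x.OK s.1 <;> by_cases h2 : ∀ x ∈ L, x.OK s.1 <;> simp [h1, h2]

open Classical in
/-- TCB/ZO (1) -/
theorem P0_diag (L : List It) (_hL : ∀ x ∈ L, x.Fits m) (s : VV m j) :
    P0 L s s = if ∀ x ∈ L, x.OK s.1 then 1 else 0 := P0_diag' L s

open Classical in
/-- TCB/ZO (2) -/
theorem P0_trace (L : List It) (_hL : ∀ x ∈ L, x.Fits m) :
    Matrix.trace (P0 L : Matrix (VV m j) (VV m j) ℤ) = #{s : VV m j | ∀ x ∈ L, x.OK s.1} := by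
  unfold Matrix.trace
  simp only [Matrix.diag_apply, P0_diag']
  rw [Finset.sum_boole]

theorem ne_of_valley {g : ℕ} (hg : g + 1 < m) {s t : VV m j} (hs : Vl g s.1)
    (ht : t.1 = fl g s.1) : t ≠ s := by
  intro h
  have h1 := (valley_fl hg ht hs).1
  rw [h] at h1
  linarith

theorem P0_pair' (x : It) (L : List It) (g : ℕ) (hg : g + 1 < m)
    (s t : VV m j) (hs : Vl g s.1) (ht : t.1 = fl g s.1) :
    P0 (x :: L) t s = M0 x t t * P0 L t s + M0 x t s * P0 L s s := by
  have h0 := ar_of hg ht (valley_fl hg ht hs).1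
  rw [P0_cons]
  refine Fintype.sum_eq_add t s (ne_of_valley hg hs ht) fun r hr => ?_
  by_contra h
  have h1 := left_ne_zero_of_mul h
  have h2 := right_ne_zero_of_mul h
  rcases M0_tri x t r h1 with h3 | h3
  · exact hr.1 h3.symm
  · rcases P0_tri L r s h2 with h4 | h4
    · exact hr.2 h4
    · linarith

/-- TCB/ZO (3): `t` is obtained from the path `s` with a valley at `g` by an exchange -/
theorem P0_pair (x : It) (L : List It) (_hx : x.Fits m) (_hL : ∀ x ∈ L, x.Fits m) (g : ℕ)
    (hg : g + 1 < m) (s t : VV m j) (hs : Vl g s.1) (ht : t.1 = fl g s.1) :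
    P0 (x :: L) t s = M0 x t t * P0 L t s + M0 x t s * P0 L s s := P0_pair' x L g hg s t hs ht

end Pool.Agent.N40.TC
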